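import Mathlib
import Pool.Agent.H.MP_1775bc_an.Key

set_option autoImplicit false

namespace Pool.Agent.Results.MP_1775bc_an.Proof

open Set Filter Topology MeasureTheory Pool.Agent.H.MP_1775bc_an

def PiecewiseCont {E : Type} [NormedAddCommGroup E] (ω : ℝ → E) : Prop :=
  ∀ t, 0 ≤ t → (∃ g : ℝ → E, Continuous g ∧ ω =ᶠ[𝓝[>] t] g) ∧
    (0 < t → ∃ g : ℝ → E, Continuous g ∧ ω =ᶠ[𝓝[<] t] g)

def IsEvolution {E : Type} [NormedAddCommGroup E] [NormedSpace ℝ E]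
    (A : ℝ → E →L[ℝ] E) (T : ℝ → ℝ → E →L[ℝ] E) : Prop :=
  ∀ s, 0 ≤ s → ∀ v : E, ContinuousOn (fun r => T r s v) (Ici s) ∧ ∀ t, s ≤ t →
    IntervalIntegrable (fun r => A r (T r s v)) volume s t ∧
    T t s v = v + ∫ r in s..t, A r (T r s v)

def NonunifContraction {E : Type} [NormedAddCommGroup E] [NormedSpace ℝ E]
    (A : ℝ → E →L[ℝ] E) : Prop :=
  ∃ (T : ℝ → ℝ → E →L[ℝ] E) (K γ ε : ℝ), IsEvolution A T ∧ 1 ≤ K ∧ 0 ≤ ε ∧ ε < γ ∧
    ∀ s t, 0 ≤ s → s ≤ t → ‖T t s‖ ≤ K * Real.exp (-γ * (t - s) + ε * s)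

def IsSol {E : Type} [NormedAddCommGroup E] [NormedSpace ℝ E]
    (f : ℝ → E → E) (t₀ : ℝ) (x : ℝ → E) : Prop :=
  ∀ t, t₀ ≤ t → HasDerivWithinAt x (f t (x t)) (Ici t₀) t

def GNAS {E : Type} [NormedAddCommGroup E] [NormedSpace ℝ E] (f : ℝ → E → E) : Prop :=
  ∀ t₀, 0 ≤ t₀ →
    (∀ η > 0, ∃ δ > 0, ∀ x, IsSol f t₀ x → ‖x t₀‖ < δ → ∀ t, t₀ ≤ t → ‖x t‖ < η) ∧
    (∀ x, IsSol f t₀ x → Tendsto x atTop (𝓝 0))

section
variable {E : Type} [NormedAddCommGroup E] [NormedSpace ℝ E] [FiniteDimensional ℝ E]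
  (f : ℝ → E → E) (J : ℝ → E → E →L[ℝ] E)

theorem no_bad (hf : ContinuousOn (fun p : ℝ × E => f p.1 p.2) (Ici 0 ×ˢ univ))
    (hJ : ∀ t, 0 ≤ t → ∀ x, HasFDerivAt (f t) (J t x) x)
    (hJc : ContinuousOn (fun p : ℝ × E => J p.1 p.2) (Ici 0 ×ˢ univ))
    (h0 : ∀ t, 0 ≤ t → f t 0 = 0)
    (G3 : ∀ ω : ℝ → E, PiecewiseCont ω → NonunifContraction (fun t => J t (ω t)))
    (t₀ : ℝ) (ht₀ : 0 ≤ t₀)
    (H : ∀ (i : ℕ) (τ : ℝ), t₀ ≤ τ → ∃ x, IsSol f t₀ x ∧ ∃ t, τ + 1 ≤ t ∧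
      2 * (i * Real.exp (-(1 / ((i : ℝ) + 1)) * (t - τ) + i * τ) * ‖x τ‖) < ‖x t‖) : False := by
  have H2 : ∀ (i : ℕ) (τ : ℝ), t₀ ≤ τ → ∃ (t : ℝ) (ω : ℝ → E) (v : E), τ + 1 ≤ t ∧ LPC ω ∧
      ∀ (A : ℝ → E →L[ℝ] E) (y : ℝ → E), (∀ r ∈ Ioc τ t, A r = J r (ω r)) →
      ContinuousOn y (Icc τ t) → IntervalIntegrable (fun r => A r (y r)) volume τ t →
      (∀ r ∈ Icc τ t, y r = v + ∫ s in τ..r, A s (y s)) →
      i * Real.exp (-(1 / ((i : ℝ) + 1)) * (t - τ) + i * τ) * ‖v‖ < ‖y t‖ := by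
    intro i τ hτ
    obtain ⟨x, hx, t, ht, hlt⟩ := H i τ hτ
    have hpos : 0 < ‖x t‖ := lt_of_le_of_lt (by positivity) hlt
    have hsub : Icc τ t ⊆ Ici t₀ := fun r hr => hτ.trans hr.1
    have hsub0 : Icc τ t ⊆ Ici 0 := fun r hr => ht₀.trans (hsub hr)
    have hxd : ∀ r ∈ Icc τ t, HasDerivWithinAt x (f r (x r)) (Icc τ t) r := fun r hr =>
      (hx r (hsub hr)).mono hsub
    have hxc : ContinuousOn x (Icc τ t) := fun r hr => (hxd r hr).continuousWithinAt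
    obtain ⟨ω, hω, hk⟩ := key (a := τ) (b := t) (by linarith) f J (fun r hr => hJ r (hsub0 hr))
      (hJc.mono (prod_mono hsub0 le_rfl)) (fun r hr => h0 r (hsub0 hr)) x hxd
      (hf.comp (continuousOn_id.prodMk hxc) fun r hr => ⟨hsub0 hr, mem_univ _⟩)
      (‖x t‖ / 2) (by positivity)
    refine ⟨t, ω, x τ, ht, hω, fun A y h1 h2 h3 h4 => ?_⟩
    have := hk A y h1 h2 h3 h4
    linarith
  choose! nx om vv hnx hom hbad using H2
  let τ : ℕ → ℝ := fun i => Nat.rec t₀ (fun i s => nx i s) i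
  have hτs : ∀ i, τ (i + 1) = nx i (τ i) := fun i => rfl
  have hτ : ∀ i : ℕ, t₀ + i ≤ τ i := by
    intro i
    induction i with
    | zero => simp [τ]
    | succ i ih =>
      have h1 : (0 : ℝ) ≤ i := Nat.cast_nonneg i
      have := hnx i (τ i) (by linarith)
      rw [hτs]
      push_cast
      linarith
  have hτ0 : ∀ i, t₀ ≤ τ i := fun i => by
    have h1 : (0 : ℝ) ≤ i := Nat.cast_nonneg i
    linarith [hτ i]
  have hmono : Monotone τ := monotone_nat_of_le_succ fun i => by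
    rw [hτs]
    linarith [hnx i (τ i) (hτ0 i)]
  have hex' : ∀ t : ℝ, ∃ i, t < τ (i + 1) := by
    intro t
    obtain ⟨i, hi⟩ := exists_nat_gt (t - t₀)
    refine ⟨i, ?_⟩
    have := hτ (i + 1)
    push_cast at this
    linarith
  have hex : ∀ t : ℝ, ∃ i, t ≤ τ (i + 1) := fun t => (hex' t).imp fun i hi => hi.le
  let idx : ℝ → ℕ := fun t => Nat.find (hex t)
  have hidx : ∀ t i, t ≤ τ (i + 1) → (∀ j < i, τ (j + 1) < t) → idx t = i := by
    intro t i h1 h2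
    exact (Nat.find_eq_iff (hex t)).mpr ⟨h1, fun j hj => not_le.mpr (h2 j hj)⟩
  let ω : ℝ → E := fun t => om (idx t) (τ (idx t)) t
  have hω : PiecewiseCont ω := by
    intro t _
    constructor
    · set i := Nat.find (hex' t)
      obtain ⟨c, hc⟩ := (hom i (τ i) (hτ0 i) t).1
      refine ⟨fun _ => c, continuous_const, ?_⟩
      filter_upwards [hc, Ioc_mem_nhdsGT (Nat.find_spec (hex' t))] with s h1 h2
      have : idx s = i := hidx s i h2.2 fun j hj =>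
        lt_of_le_of_lt (not_lt.mp (Nat.find_min (hex' t) hj)) h2.1
      simp only [ω, this]
      exact h1
    · intro _
      set i := idx t
      obtain ⟨c, hc⟩ := (hom i (τ i) (hτ0 i) t).2
      refine ⟨fun _ => c, continuous_const, ?_⟩
      have h3 : ∀ᶠ s in 𝓝[<] t, ∀ j ∈ {j | j < i}, τ (j + 1) < s :=
        (eventually_all_finite (finite_lt_nat i)).mpr fun j hj =>
          nhdsWithin_le_nhds (lt_mem_nhds (not_le.mp (Nat.find_min (hex t) hj)))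
      filter_upwards [hc, h3, self_mem_nhdsWithin] with s h1 h2 h4
      have : idx s = i := hidx s i ((le_of_lt h4).trans (Nat.find_spec (hex t))) h2
      simp only [ω, this]
      exact h1
  obtain ⟨T, K, γ, ε, hT, hK, hε, hγ, hb⟩ := G3 ω hω
  have hγ0 : 0 < γ := hε.trans_lt hγ
  obtain ⟨i, hi⟩ := exists_nat_gt (max (max K ε) (1 / γ))
  simp only [max_lt_iff] at hi
  have hs0 : 0 ≤ τ i := ht₀.trans (hτ0 i)
  have hlt := hnx i (τ i) (hτ0 i)
  obtain ⟨c1, c2⟩ := hT (τ i) hs0 (vv i (τ i))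
  have h1 := hbad i (τ i) (hτ0 i) (fun t => J t (ω t)) (fun r => T r (τ i) (vv i (τ i)))
    (fun r hr => by
      have : idx r = i := hidx r i hr.2 fun j hj => lt_of_le_of_lt (hmono hj) hr.1
      simp only [ω, this])
    (c1.mono Icc_subset_Ici_self) (c2 _ (by linarith)).1 (fun r hr => (c2 r hr.1).2)
  have h2 := hb (τ i) (nx i (τ i)) hs0 (by linarith)
  have h3 : K * Real.exp (-γ * (nx i (τ i) - τ i) + ε * τ i) ≤
      i * Real.exp (-(1 / ((i : ℝ) + 1)) * (nx i (τ i) - τ i) + i * τ i) := by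
    refine mul_le_mul hi.1.1.le (Real.exp_le_exp.mpr ?_) (Real.exp_pos _).le (Nat.cast_nonneg i)
    have a1 : 1 / ((i : ℝ) + 1) ≤ γ := by
      have := hi.2
      rw [div_lt_iff₀ hγ0] at this
      rw [div_le_iff₀ (by positivity)]
      nlinarith
    have a2 : 0 ≤ nx i (τ i) - τ i := by linarith
    nlinarith [mul_le_mul_of_nonneg_right a1 a2, mul_le_mul_of_nonneg_right hi.1.2.le hs0]
  have h4 := ((T (nx i (τ i)) (τ i)).le_opNorm (vv i (τ i))).trans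
    (mul_le_mul_of_nonneg_right (h2.trans h3) (norm_nonneg _))
  exact absurd h1 (not_lt.mpr h4)

theorem small (hJ : ∀ t, 0 ≤ t → ∀ x, HasFDerivAt (f t) (J t x) x)
    (hJc : ContinuousOn (fun p : ℝ × E => J p.1 p.2) (Ici 0 ×ˢ univ))
    (h0 : ∀ t, 0 ≤ t → f t 0 = 0) (t₀ : ℝ) (ht₀ : 0 ≤ t₀) (b η ρ : ℝ) (hη : 0 < η) (hρ : 0 < ρ) :
    ∃ δ > 0, ∀ x, IsSol f t₀ x → ‖x t₀‖ < δ → ∀ t ∈ Icc t₀ b, ‖x t‖ < min η ρ := by
  have hC : IsCompact (Icc t₀ b ×ˢ Metric.closedBall (0 : E) η) :=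
    isCompact_Icc.prod (isCompact_closedBall _ _)
  obtain ⟨M0, hM0⟩ := hC.exists_bound_of_continuousOn
    (hJc.mono (prod_mono (fun r hr => ht₀.trans hr.1) (subset_univ _)))
  set M := max M0 0
  have hM : 0 ≤ M := le_max_right _ _
  have hlip : ∀ t ∈ Icc t₀ b, ∀ z ∈ Metric.closedBall (0 : E) η, ‖f t z‖ ≤ M * ‖z‖ := by
    intro t ht z hz
    have := (convex_closedBall (0 : E) η).norm_image_sub_le_of_norm_hasFDerivWithin_le
      (f := f t) (f' := J t) (C := M)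
      (fun w _ => (hJ t (ht₀.trans ht.1) w).hasFDerivWithinAt)
      (fun w hw => (hM0 (t, w) ⟨ht, hw⟩).trans (le_max_left _ _))
      (Metric.mem_closedBall_self hη.le) hz
    simpa [h0 t (ht₀.trans ht.1)] using this
  have hm : 0 < min η ρ := lt_min hη hρ
  refine ⟨min η ρ / Real.exp (M * (b - t₀)), by positivity, fun x hx hx0 => ?_⟩
  have hxc : ContinuousOn x (Ici t₀) := fun r hr => (hx r hr).continuousWithinAt
  have hG : ∀ u ∈ Icc t₀ b, (∀ r ∈ Ico t₀ u, ‖x r‖ ≤ η) → ‖x u‖ < min η ρ := by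
    intro u hu hb
    have := norm_le_gronwallBound_of_norm_deriv_right_le (f := x) (f' := fun r => f r (x r))
      (δ := ‖x t₀‖) (K := M) (ε := 0) (a := t₀) (b := u) (hxc.mono Icc_subset_Ici_self)
      (fun r hr => (hx r hr.1).mono (Ici_subset_Ici.mpr hr.1)) le_rfl
      (fun r hr => by
        simpa using hlip r ⟨hr.1, hr.2.le.trans hu.2⟩ _ (mem_closedBall_zero_iff.mpr (hb r hr)))
      u ⟨hu.1, le_rfl⟩
    rw [gronwallBound_ε0] at this
    rw [lt_div_iff₀ (Real.exp_pos _)] at hx0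
    refine this.trans_lt (lt_of_le_of_lt ?_ hx0)
    have := hu.2
    gcongr
  by_contra hcon
  push Not at hcon
  have hcl : IsClosed {t ∈ Icc t₀ b | min η ρ ≤ ‖x t‖} :=
    isClosed_Icc.isClosed_le continuousOn_const (hxc.mono Icc_subset_Ici_self).norm
  obtain ⟨u, hu, hmin⟩ := (isCompact_Icc.of_isClosed_subset hcl (sep_subset _ _)).exists_isLeast hcon
  refine absurd (hG u hu.1 fun r hr => ?_) (not_lt.mpr hu.2)
  by_contra h
  have : u ≤ r := hmin ⟨⟨hr.1, hr.2.le.trans hu.1.2⟩, (min_le_left _ _).trans (not_le.mp h).le⟩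
  exact absurd hr.2 (not_lt.mpr this)

end

theorem result (E : Type) [NormedAddCommGroup E] [NormedSpace ℝ E] [FiniteDimensional ℝ E]
    (f : ℝ → E → E) (J : ℝ → E → E →L[ℝ] E)
    (hf : ContinuousOn (fun p : ℝ × E => f p.1 p.2) (Ici 0 ×ˢ univ))
    (hJ : ∀ t, 0 ≤ t → ∀ x, HasFDerivAt (f t) (J t x) x)
    (hJc : ContinuousOn (fun p : ℝ × E => J p.1 p.2) (Ici 0 ×ˢ univ))
    (h0 : ∀ t, 0 ≤ t → f t 0 = 0)
    (G3 : ∀ ω : ℝ → E, PiecewiseCont ω → NonunifContraction (fun t => J t (ω t))) :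
    GNAS f := by
  intro t₀ ht₀
  constructor
  · intro η hη
    by_contra hcon
    push Not at hcon
    refine no_bad f J hf hJ hJc h0 G3 t₀ ht₀ fun i τ hτ => ?_
    have hE : 0 < 2 * (i * Real.exp (i * τ)) + 1 := by positivity
    obtain ⟨δ, hδ, hs⟩ := small f J hJ hJc h0 t₀ ht₀ (τ + 1) η
      (η / (2 * (i * Real.exp (i * τ)) + 1)) hη (by positivity)
    obtain ⟨x, hx, hx0, t, ht, hxt⟩ := hcon δ hδ
    have h1 : τ + 1 ≤ t := by
      by_contra h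
      have := hs x hx hx0 t ⟨ht, (not_le.mp h).le⟩
      exact absurd (this.trans_le (min_le_left _ _)) (not_lt.mpr hxt)
    refine ⟨x, hx, t, h1, lt_of_lt_of_le ?_ hxt⟩
    have h2 := (hs x hx hx0 τ ⟨hτ, by linarith⟩).trans_le (min_le_right _ _)
    rw [lt_div_iff₀ hE] at h2
    have h3 : Real.exp (-(1 / ((i : ℝ) + 1)) * (t - τ) + i * τ) ≤ Real.exp (i * τ) := by
      refine Real.exp_le_exp.mpr ?_
      have : 0 ≤ 1 / ((i : ℝ) + 1) * (t - τ) := mul_nonneg (by positivity) (by linarith)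
      linarith
    have h4 : i * Real.exp (-(1 / ((i : ℝ) + 1)) * (t - τ) + i * τ) * ‖x τ‖ ≤
        i * Real.exp (i * τ) * ‖x τ‖ := by gcongr
    nlinarith [norm_nonneg (x τ)]
  · intro x hx
    by_contra hcon
    rw [NormedAddGroup.tendsto_nhds_zero] at hcon
    push Not at hcon
    obtain ⟨η, hη, hfr⟩ := hcon
    refine no_bad f J hf hJ hJc h0 G3 t₀ ht₀ fun i τ _ => ⟨x, hx, ?_⟩
    have h1 : Tendsto (fun t : ℝ => -(1 / ((i : ℝ) + 1)) * (t - τ) + i * τ) atTop atBot := by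
      refine tendsto_atBot_add_const_right _ _ (Tendsto.const_mul_atTop_of_neg ?_ ?_)
      · have : (0 : ℝ) < 1 / ((i : ℝ) + 1) := by positivity
        linarith
      · exact tendsto_atTop_add_const_right _ _ tendsto_id
    have h2 := (((Real.tendsto_exp_atBot.comp h1).const_mul (i : ℝ)).mul_const ‖x τ‖).const_mul 2
    simp only [mul_zero, zero_mul] at h2
    obtain ⟨t, a1, a2, a3⟩ :=
      (hfr.and_eventually ((eventually_ge_atTop (τ + 1)).and (h2.eventually (gt_mem_nhds hη)))).exists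
    exact ⟨t, a2, lt_of_lt_of_le a3 a1⟩

end Pool.Agent.Results.MP_1775bc_an.Proof
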